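import Pool.Agent.Helper1.IT.Main

namespace Pool.Agent.Results.MP_0586ce_co.IrrationalInducibility

open Filter Topology Pool.Agent.Helper1.IT

/-- **An irrational inducibility.** Let `D` be the rooted binary tree with 8 leaves whose two
branches are the caterpillar with 6 leaves and the cherry. The maximum of the density of `D` over
the rooted binary trees with `n` leaves tends to `(35 √5 - 77) / 4`, an irrational number. -/
theorem result :
    Tendsto (fun n : ℕ => sSup {x : ℝ | ∃ T : BinTree, T.size = n ∧
        x = density (.node (caterpillar 5) (caterpillar 1)) T})
      atTop (𝓝 ((35 * √5 - 77) / 4)) ∧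
    Irrational ((35 * √5 - 77) / 4) :=
  main

end Pool.Agent.Results.MP_0586ce_co.IrrationalInducibility
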